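import Pool.Agent.Q148.ToricDefs
import Pool.Agent.Q148.ToricFin

open Q148.Toric

namespace Pool.Agent.Results.MP_dd0c5a_co.CubicBlock

/-- For `n = 5` and every field there is a linear order of the lattice points in which matrices
with more entries two come first, and another one in which they come last, such that the reduced
Groebner basis for the graded reverse lexicographic order has an element of degree three whose
matrix has a block form. -/
theorem result (k : Type) [Field k] :
    (∃ r : LinearOrder (Pt 5), (∀ M N : Pt 5, twos N < twos M → r.lt M N) ∧ HasCubicBlock k r) ∧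
    (∃ r : LinearOrder (Pt 5), (∀ M N : Pt 5, twos M < twos N → r.lt M N) ∧ HasCubicBlock k r) :=
  ⟨⟨rL, rL_ext, cubicL k⟩, ⟨rI, rI_ext, cubicI k⟩⟩

end Pool.Agent.Results.MP_dd0c5a_co.CubicBlock
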